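import Pool.Agent.H53.HcC

/-! The sum of the moduli of the Fourier coefficients of a hyperbolic cross polynomial is at most
`C N` times its `L₁` norm. -/

namespace Pool.Agent.Results.MP_31cf03_an.Full

open Finset Complex Real H53.Hc

/-- the hyperbolic cross `Γ(N)` -/
def cross (d : ℕ) (N : ℝ) : Set (Fin d → ℤ) := {k | ((∏ j, max |k j| 1 : ℤ) : ℝ) ≤ N}

/-- the trigonometric polynomial with coefficients `a` -/
noncomputable def poly {d : ℕ} (a : (Fin d → ℤ) →₀ ℂ) (x : Fin d → ℝ) : ℂ :=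
  ∑ k ∈ a.support, a k * cexp (I * (∑ j, k j * x j : ℝ))

/-- the normalised `L₁` norm on `[0, 2π)^d` -/
noncomputable def L1 {d : ℕ} (f : (Fin d → ℝ) → ℂ) : ℝ :=
  ((2 * π) ^ d)⁻¹ * ∫ x in Set.univ.pi fun _ => Set.Ico 0 (2 * π), ‖f x‖

/-- the quantity `A_d(N)` -/
noncomputable def A (d : ℕ) (N : ℝ) : ℝ :=
  sSup {r | ∃ a : (Fin d → ℤ) →₀ ℂ, a ≠ 0 ∧ (a.support : Set (Fin d → ℤ)) ⊆ cross d N ∧
    r = (∑ k ∈ a.support, ‖a k‖) / L1 (poly a)}

theorem result (d : ℕ) (hd : 1 ≤ d) : ∃ C : ℝ, 0 < C ∧ ∀ N : ℝ, 1 ≤ N →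
    N / 2 ≤ A d N ∧ A d N ≤ C * N := by
  obtain ⟨C, hC, H⟩ := upper d
  refine ⟨C * 2 ^ d, by positivity, fun N hN => ?_⟩
  have hL : ∀ a : (Fin d → ℤ) →₀ ℂ, L1 (poly a) = av fun x => ‖ev x (.ofCoeff a)‖ := fun a => by
    simp only [ev_apply]; rfl
  have up : ∀ r ∈ {r | ∃ a : (Fin d → ℤ) →₀ ℂ, a ≠ 0 ∧
      (a.support : Set (Fin d → ℤ)) ⊆ cross d N ∧ r = (∑ k ∈ a.support, ‖a k‖) / L1 (poly a)},
      r ≤ C * 2 ^ d * N := by
    rintro _ ⟨a, h0, h1, rfl⟩
    let Γ := a.support ∪ a.support.image (-·)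
    have h2 : ∀ k ∈ Γ, k ∈ cross d N := fun k hk => by
      rcases mem_union.1 hk with hk | hk
      · exact h1 hk
      · obtain ⟨l, hl, rfl⟩ := mem_image.1 hk
        simpa [cross] using h1 hl
    obtain ⟨k, hk, h3⟩ := exists_mem_eq_sup Γ ((Finsupp.support_nonempty_iff.2 h0).mono
      subset_union_left) fun k => ∑ j, sz k j
    have h4 := H _ Γ (fun k hk => by
      simp only [Γ, mem_union, mem_image] at hk ⊢
      rcases hk with hk | ⟨l, hl, rfl⟩
      exacts [.inr ⟨k, hk, rfl⟩, .inl (by rwa [neg_neg])]) (fun k hk => le_sup (f := fun k =>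
        ∑ j, sz k j) hk) a
    have h5 : (2 : ℤ) ^ ∑ j, sz k j ≤ 2 ^ d * ∏ j, max |k j| 1 := by
      rw [← prod_pow_eq_pow_sum, show (2 : ℤ) ^ d = ∏ _j : Fin d, 2 by simp, ← prod_mul_distrib]
      refine prod_le_prod (fun _ _ => by positivity) fun j _ => ?_
      rcases h : sz k j with _ | s
      · have := le_max_right |k j| 1; omega
      · have h6 : 2 ^ s ≤ (k j).natAbs := Nat.lt_size.1 (by unfold sz at h; omega)
        have h7 : (2 : ℤ) ^ s ≤ |k j| := by rw [← Int.natCast_natAbs]; exact_mod_cast h6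
        have := le_max_left |k j| 1
        rw [pow_succ]; omega
    have h6 : (2 : ℝ) ^ ∑ j, sz k j ≤ 2 ^ d * N :=
      le_trans (by exact_mod_cast h5) (mul_le_mul_of_nonneg_left (h2 k hk) (by positivity))
    have h7 : ∀ k ∈ Γ, k ∉ a.support → a k = 0 := fun k _ h => Finsupp.notMem_support_iff.1 h
    rw [← sum_subset subset_union_left fun k hk h => by rw [h7 k hk h, norm_zero], h3] at h4
    have h9 : ∀ x, ∑ k ∈ Γ, a k * ex k x = poly a x := fun x =>
      (sum_subset subset_union_left fun k hk h => by rw [h7 k hk h, zero_mul]).symm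
    simp only [h9] at h4
    have h8 : 0 ≤ L1 (poly a) := by rw [hL]; exact (norm_nonneg _).trans (coeff0_le _)
    refine div_le_of_le_mul₀ h8 (by positivity) (h4.trans (mul_le_mul_of_nonneg_right ?_ h8))
    rw [mul_assoc]; gcongr
  refine ⟨?_, Real.sSup_le up (by positivity)⟩
  let i : Fin d := ⟨0, hd⟩
  let m := ⌊N / 2⌋₊
  let D : ℤ → R d := fun c => ∑ j ∈ range (m + 1), .single (Pi.single i (c * j)) 1
  have h1 : ∀ c : ℤ, c.natAbs = 1 → Box (Pi.single i m) (D c) := fun c hc l hl j => by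
    rw [AddMonoidAlgebra.coeff_sum, Finsupp.finset_sum_apply] at hl
    obtain ⟨s, hs, h⟩ := exists_ne_zero_of_sum_ne_zero hl
    obtain rfl : l = Pi.single i (c * s) := (Finsupp.single_apply_ne_zero.1 h).1
    by_cases e : j = i
    · simpa [e, Int.natAbs_mul, hc, Nat.lt_succ_iff] using hs
    · simp [e]
  have h2 : (D 1 * D (-1)).coeff 0 = (m + 1 : ℕ) := by
    simp only [D, sum_mul_sum, AddMonoidAlgebra.single_mul_single, AddMonoidAlgebra.coeff_sum,
      Finsupp.finset_sum_apply, AddMonoidAlgebra.coeff_single, Finsupp.single_apply,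
      ← Pi.single_add, Pi.single_eq_zero_iff]
    rw [sum_congr rfl fun s hs => sum_eq_single_of_mem s hs fun t _ h => if_neg (by omega)]
    simp
  have h3 : ∀ x, ev x (D 1 * D (-1)) = (‖ev x (D 1 * D (-1))‖ : ℝ) := fun x => by
    have : ev x (D (-1)) = starRingEnd ℂ (ev x (D 1)) := by
      simp [D, ev_single, conj_ex, ← Pi.single_neg]
    rw [map_mul, this, norm_mul, norm_conj, mul_conj', sq, ofReal_mul]
  have h4 := av_le _ h3
  have h5 := coeff0_le (D 1 * D (-1))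
  rw [h2, Complex.norm_natCast] at h4 h5
  have h6 : ((m + 1 : ℕ) : ℝ) * (m + 1 : ℕ) ≤
      ∑ k ∈ (D 1 * D (-1)).coeff.support, ‖(D 1 * D (-1)).coeff k‖ := by
    have : ev 0 (D 1 * D (-1)) = (((m + 1 : ℕ) : ℝ) * (m + 1 : ℕ) : ℝ) := by
      simp [D, ev_single, ex]
    refine (le_abs_self _).trans ?_
    rw [← Real.norm_eq_abs, ← norm_real, ← this, ev_apply]
    exact norm_sum_le_of_le _ fun k _ => by rw [norm_mul, norm_ex, mul_one]
  refine le_trans ?_ (le_csSup ⟨_, up⟩ ⟨(D 1 * D (-1)).coeff, fun e => ?_, fun k hk => ?_, rfl⟩)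
  · rw [hL, le_antisymm h4 h5, le_div_iff₀ (by positivity)]
    refine le_trans (mul_le_mul_of_nonneg_right ?_ (by positivity)) h6
    exact_mod_cast (Nat.lt_floor_add_one _).le
  · rw [e] at h2; exact Nat.cast_ne_zero.2 m.succ_ne_zero h2.symm
  · have h7 := ((h1 1 rfl).mul (h1 (-1) rfl)) k (Finsupp.mem_support_iff.1 hk)
    rw [cross, Set.mem_setOf, prod_eq_single i (fun j _ e => by
      have := h7 j
      simp only [Pi.single_eq_of_ne e] at this
      rw [show k j = 0 by omega]; rfl) (by simp)]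
    have h8 := h7 i
    simp only [Pi.single_eq_same] at h8
    have h9 : (m : ℝ) ≤ N / 2 := Nat.floor_le (by positivity)
    have h10 : (|k i| : ℤ) ≤ m + m := by rw [← Int.natCast_natAbs]; exact_mod_cast h8
    have h11 : ((|k i| : ℤ) : ℝ) ≤ m + m := by exact_mod_cast h10
    rw [Int.cast_max, Int.cast_one]
    exact max_le (by linarith) hN

end Pool.Agent.Results.MP_31cf03_an.Full
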